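import Pool.Agent.Lib.MP_c7a422_lc.Z.Final

/-!
# M(C, WO) implies M(TB, WO) in ZF

In every model of ZF in which all compact metrizable spaces are well-orderable, all totally bounded
metric spaces are well-orderable.
-/

namespace Pool.Agent.Results.MP_c7a422_lc.CompactToTB

open Pool.Agent.Lib.MP_c7a422_lc.Z

universe u

theorem result : ∀ {M : Type u} (E : M → M → Prop), IsZF E → MCWO E → MTBWO E :=
  fun E zf hC => final E zf hC

end Pool.Agent.Results.MP_c7a422_lc.CompactToTB
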